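import Pool.Agent.helper14.AV.Spec3

set_option autoImplicit false

namespace Pool.Agent.helper14.AV

lemma TRI_cyc (a b c : ℝ × ℝ) : D a b c = D b c a := by
  unfold D; ring

lemma TRI_aff (p q u v : ℝ × ℝ) (α β : ℝ) (h : α + β = 1) : D p q (α • u + β • v) = α * D p q u + β * D p q v := by
  have hβ : β = 1 - α := by linarith
  subst hβ
  unfold D
  simp only [Prod.fst_add, Prod.snd_add, Prod.smul_fst, Prod.smul_snd, smul_eq_mul]
  ring

lemma TRI_pos (s : ℝ) (p q u v w : ℝ × ℝ) (hu : 0 < s * D p q u) (hv : 0 < s * D p q v) (hw : w ∈ segment ℝ u v) :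
    0 < s * D p q w := by
  obtain ⟨α, β, hα, hβ, hs, rfl⟩ := hw
  rw [TRI_aff p q u v α β hs]
  have h : s * (α * D p q u + β * D p q v) = α * (s * D p q u) + β * (s * D p q v) := by ring
  rw [h]
  rcases lt_or_eq_of_le hα with h1 | h1
  · exact add_pos_of_pos_of_nonneg (mul_pos h1 hu) (mul_nonneg hβ (le_of_lt hv))
  · have h2 : β = 1 := by linarith
    rw [← h1, h2]
    simpa using hv

lemma TRI_zero (p q w : ℝ × ℝ) (hw : w ∈ segment ℝ p q) : D p q w = 0 := by
  obtain ⟨α, β, hα, hβ, hs, rfl⟩ := hw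
  rw [TRI_aff p q p q α β hs]
  unfold D; ring

lemma TRI_ivt (p q u v : ℝ × ℝ) (h : D p q u * D p q v ≤ 0) : ∃ w ∈ segment ℝ u v, D p q w = 0 := by
  by_cases hu : D p q u = 0
  · exact ⟨u, left_mem_segment ℝ u v, hu⟩
  by_cases hv : D p q v = 0
  · exact ⟨v, right_mem_segment ℝ u v, hv⟩
  have hlt : D p q u * D p q v < 0 := lt_of_le_of_ne h (mul_ne_zero hu hv)
  rcases lt_or_gt_of_ne hu with h1 | h1
  · have h2 : 0 < D p q v := by
      by_contra hc
      have := mul_nonneg_of_nonpos_of_nonpos (le_of_lt h1) (not_lt.mp hc)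
      linarith
    have h3 : 0 < D p q v - D p q u := by linarith
    have h3' : D p q v - D p q u ≠ 0 := ne_of_gt h3
    have hsum : D p q v / (D p q v - D p q u) + (-D p q u) / (D p q v - D p q u) = 1 := by
      field_simp
      ring
    refine ⟨(D p q v / (D p q v - D p q u)) • u + ((-D p q u) / (D p q v - D p q u)) • v,
      ⟨_, _, div_nonneg (le_of_lt h2) (le_of_lt h3), div_nonneg (by linarith) (le_of_lt h3), hsum, rfl⟩, ?_⟩
    rw [TRI_aff p q u v _ _ hsum]
    field_simp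
    ring
  · have h2 : D p q v < 0 := by
      by_contra hc
      have := mul_nonneg (le_of_lt h1) (not_lt.mp hc)
      linarith
    have h3 : 0 < D p q u - D p q v := by linarith
    have h3' : D p q u - D p q v ≠ 0 := ne_of_gt h3
    have hsum : (-D p q v) / (D p q u - D p q v) + D p q u / (D p q u - D p q v) = 1 := by
      field_simp
      ring
    refine ⟨((-D p q v) / (D p q u - D p q v)) • u + (D p q u / (D p q u - D p q v)) • v,
      ⟨_, _, div_nonneg (by linarith) (le_of_lt h3), div_nonneg (le_of_lt h1) (le_of_lt h3), hsum, rfl⟩, ?_⟩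
    rw [TRI_aff p q u v _ _ hsum]
    field_simp
    ring

lemma TRI_chain (A B C E : ℝ) (h1 : 0 < A * B) (h2 : 0 < B * C) (h3 : 0 < C * E) : 0 < A * E := by
  by_contra hc
  have h4 := mul_pos (mul_pos h1 h2) h3
  have h5 : A * B * (B * C) * (C * E) = (A * E) * (B * C) ^ 2 := by ring
  have h6 : (A * E) * (B * C) ^ 2 ≤ 0 := mul_nonpos_of_nonpos_of_nonneg (not_lt.mp hc) (sq_nonneg _)
  linarith

theorem TRI (hCOL : COL_stmt) : TRI_stmt := by
  intro a1 a2 b1 b2 c1 c2 sa sb sc ha hb hc x x' y y' z z' hx hx' hy hy' hz hz'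
  obtain ⟨ha1, ha2, ha3, ha4⟩ := ha
  obtain ⟨hb1, hb2, hb3, hb4⟩ := hb
  obtain ⟨hc1, hc2, hc3, hc4⟩ := hc
  have NZ : ∀ x y z : ℝ × ℝ, x ∈ segment ℝ a1 a2 → y ∈ segment ℝ b1 b2 → z ∈ segment ℝ c1 c2 → D x y z ≠ 0 := by
    intro x y z hx hy hz h0
    rcases hCOL x y z h0 with h | h | h
    · have h1 := TRI_pos sa a1 a2 y z x (TRI_pos sa a1 a2 b1 b2 y ha1 ha2 hy) (TRI_pos sa a1 a2 c1 c2 z ha3 ha4 hz) h
      rw [TRI_zero a1 a2 x hx] at h1
      simp at h1
    · have h1 := TRI_pos sb b1 b2 x z y (TRI_pos sb b1 b2 a1 a2 x hb1 hb2 hx) (TRI_pos sb b1 b2 c1 c2 z hb3 hb4 hz) h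
      rw [TRI_zero b1 b2 y hy] at h1
      simp at h1
    · have h1 := TRI_pos sc c1 c2 x y z (TRI_pos sc c1 c2 a1 a2 x hc1 hc2 hx) (TRI_pos sc c1 c2 b1 b2 y hc3 hc4 hy) h
      rw [TRI_zero c1 c2 z hz] at h1
      simp at h1
  have h1 : 0 < D x y z * D x y z' := by
    by_contra h
    obtain ⟨w, hw, hw0⟩ := TRI_ivt x y z z' (not_lt.mp h)
    exact NZ x y w hx hy ((convex_segment c1 c2).segment_subset hz hz' hw) hw0
  have h2 : 0 < D x y z' * D x y' z' := by
    by_contra h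
    have h' : D z' x y * D z' x y' ≤ 0 := by
      rw [TRI_cyc z' x y, TRI_cyc z' x y']
      exact not_lt.mp h
    obtain ⟨w, hw, hw0⟩ := TRI_ivt z' x y y' h'
    rw [TRI_cyc] at hw0
    exact NZ x w z' hx ((convex_segment b1 b2).segment_subset hy hy' hw) hz' hw0
  have h3 : 0 < D x y' z' * D x' y' z' := by
    by_contra h
    have h' : D y' z' x * D y' z' x' ≤ 0 := by
      rw [← TRI_cyc x y' z', ← TRI_cyc x' y' z']
      exact not_lt.mp h
    obtain ⟨w, hw, hw0⟩ := TRI_ivt y' z' x x' h'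
    rw [← TRI_cyc] at hw0
    exact NZ w y' z' ((convex_segment a1 a2).segment_subset hx hx' hw) hy' hz' hw0
  exact TRI_chain _ _ _ _ h1 h2 h3

end Pool.Agent.helper14.AV
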